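import Mathlib
import Pool.Agent.R232.BrokenLin

/-!
# MP_8df504_an, Q1: a broken-linear homeomorphism and a set with totally oscillating averages

The map is the homeomorphism `T x = max (x / 2) (2 x - 1)` of `[0,1]`. Write `x ∈ (0,1]` as
`x = 2^{-k} u` with `u ∈ (1/2,1]` and let `R` be the set of all `x` whose level `k` satisfies
`⌊log₂ ⌊log₂ k⌋⌋` even. For every `p ∈ (0,1)` the averages `A_N(R,p)` have every number of `[0,1]`
as a limit point.
-/

open MeasureTheory Set Filter Topology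
open Pool.Agent.R232.BrokenLin

namespace Pool.Agent.Results.MP_8df504_an.FullOscillation

open Classical in
/-- indicator of the levels `k` with `⌊log₂ ⌊log₂ k⌋⌋` even -/
noncomputable def w (k : ℕ) : ℝ := if Even (Nat.log 2 (Nat.log 2 k)) then 1 else 0

lemma w_nonneg (k : ℕ) : 0 ≤ w k := by unfold w; split_ifs <;> norm_num
lemma w_le (k : ℕ) : w k ≤ 1 := by unfold w; split_ifs <;> norm_num

/-- the set of the counterexample -/
def R : Set ℝ := {x | x ∈ Ioc (0:ℝ) 1 ∧ Even (Nat.log 2 (Nat.log 2 (lev x)))}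

lemma measurable_R : MeasurableSet R := by
  apply measurableSet_Ioc.inter
  exact measurable_lev (t := {k | Even (Nat.log 2 (Nat.log 2 k))}) (MeasurableSet.of_discrete)

lemma ind_R {q : ℝ} (h0 : 0 < q) (hq : q ≤ 2 / 3) (i : ℕ) :
    R.indicator (fun _ => (1 : ℝ)) (q / 2 ^ i) = w (lev q + i) := by
  classical
  unfold w
  rw [Set.indicator_apply]
  have : q / 2 ^ i ∈ R ↔ Even (Nat.log 2 (Nat.log 2 (lev q + i))) := by
    unfold R
    rw [← lev_half h0 (by linarith)]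
    simp only [mem_ofPred_eq, half_mem h0 hq i, true_and]
  simp only [this]

/-- shifting changes a sum of numbers in `[0,1]` by at most the shift -/
lemma shift_bound (a : ℕ → ℝ) (h0 : ∀ i, 0 ≤ a i) (h1 : ∀ i, a i ≤ 1) (n N : ℕ) :
    |∑ i ∈ Finset.range N, a (n + i) - ∑ i ∈ Finset.range N, a i| ≤ n := by
  have e1 : ∑ i ∈ Finset.range N, a (n + i) =
      ∑ i ∈ Finset.range (n + N), a i - ∑ i ∈ Finset.range n, a i := by
    rw [Finset.sum_range_add]; ring
  have e2 : ∑ i ∈ Finset.range (n + N), a i =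
      ∑ i ∈ Finset.range N, a i + ∑ i ∈ Finset.range n, a (N + i) := by
    rw [add_comm n N, Finset.sum_range_add]
  have e3 : ∑ i ∈ Finset.range n, a i ≤ n := by
    calc ∑ i ∈ Finset.range n, a i ≤ ∑ i ∈ Finset.range n, (1:ℝ) :=
          Finset.sum_le_sum (fun i _ => h1 i)
      _ = n := by simp
  have e4 : ∑ i ∈ Finset.range n, a (N + i) ≤ n := by
    calc ∑ i ∈ Finset.range n, a (N + i) ≤ ∑ i ∈ Finset.range n, (1:ℝ) :=
          Finset.sum_le_sum (fun i _ => h1 _)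
      _ = n := by simp
  have e5 : 0 ≤ ∑ i ∈ Finset.range n, a i := Finset.sum_nonneg (fun i _ => h0 i)
  have e6 : 0 ≤ ∑ i ∈ Finset.range n, a (N + i) := Finset.sum_nonneg (fun i _ => h0 _)
  rw [e1, e2, abs_le]
  constructor <;> linarith

/-- the partial sums of `w` over `[0, 2^{2^{j+1}})` when `j` is even -/
lemma sum_even (j : ℕ) (hj : Even j) :
    (2:ℝ) ^ (2 ^ (j + 1)) - 2 ^ (2 ^ j) ≤ ∑ i ∈ Finset.range (2 ^ (2 ^ (j + 1))), w i := by
  have hle : 2 ^ (2 ^ j) ≤ 2 ^ (2 ^ (j + 1)) :=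
    Nat.pow_le_pow_right (by norm_num) (Nat.pow_le_pow_right (by norm_num) (by omega))
  rw [← Finset.sum_range_add_sum_Ico _ hle]
  have h0 : 0 ≤ ∑ i ∈ Finset.range (2 ^ (2 ^ j)), w i := Finset.sum_nonneg (fun i _ => w_nonneg i)
  have h1 : ∑ i ∈ Finset.Ico (2 ^ (2 ^ j)) (2 ^ (2 ^ (j + 1))), w i =
      ∑ i ∈ Finset.Ico (2 ^ (2 ^ j)) (2 ^ (2 ^ (j + 1))), (1:ℝ) := by
    apply Finset.sum_congr rfl
    intro i hi
    rw [Finset.mem_Ico] at hi
    have ha : 2 ^ j ≤ Nat.log 2 i := Nat.le_log_of_pow_le (by norm_num) hi.1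
    have hb : Nat.log 2 i < 2 ^ (j + 1) := Nat.log_lt_of_lt_pow (by
      have : 0 < 2 ^ (2 ^ j) := by positivity
      omega) hi.2
    have hc : Nat.log 2 (Nat.log 2 i) = j := by
      rw [Nat.log_eq_iff (by right; exact ⟨by norm_num, by
        have : 0 < 2 ^ j := by positivity
        omega⟩)]
      exact ⟨ha, hb⟩
    unfold w
    rw [hc, if_pos hj]
  rw [h1, Finset.sum_const, Nat.card_Ico, nsmul_eq_mul, mul_one, Nat.cast_sub hle]
  push_cast
  linarith

/-- the partial sums of `w` over `[0, 2^{2^{j+1}})` when `j` is odd -/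
lemma sum_odd (j : ℕ) (hj : ¬ Even j) :
    ∑ i ∈ Finset.range (2 ^ (2 ^ (j + 1))), w i ≤ (2:ℝ) ^ (2 ^ j) := by
  have hle : 2 ^ (2 ^ j) ≤ 2 ^ (2 ^ (j + 1)) :=
    Nat.pow_le_pow_right (by norm_num) (Nat.pow_le_pow_right (by norm_num) (by omega))
  rw [← Finset.sum_range_add_sum_Ico _ hle]
  have h0 : ∑ i ∈ Finset.range (2 ^ (2 ^ j)), w i ≤ (2:ℝ) ^ (2 ^ j) := by
    calc ∑ i ∈ Finset.range (2 ^ (2 ^ j)), w i ≤ ∑ i ∈ Finset.range (2 ^ (2 ^ j)), (1:ℝ) :=
          Finset.sum_le_sum (fun i _ => w_le i)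
      _ = (2:ℝ) ^ (2 ^ j) := by simp
  have h1 : ∑ i ∈ Finset.Ico (2 ^ (2 ^ j)) (2 ^ (2 ^ (j + 1))), w i = 0 := by
    apply Finset.sum_eq_zero
    intro i hi
    rw [Finset.mem_Ico] at hi
    have ha : 2 ^ j ≤ Nat.log 2 i := Nat.le_log_of_pow_le (by norm_num) hi.1
    have hb : Nat.log 2 i < 2 ^ (j + 1) := Nat.log_lt_of_lt_pow (by
      have : 0 < 2 ^ (2 ^ j) := by positivity
      omega) hi.2
    have hc : Nat.log 2 (Nat.log 2 i) = j := by
      rw [Nat.log_eq_iff (by right; exact ⟨by norm_num, by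
        have : 0 < 2 ^ j := by positivity
        omega⟩)]
      exact ⟨ha, hb⟩
    unfold w
    rw [hc, if_neg hj]
  rw [h1]
  linarith

/-- the averages differ from those of `w` by `O(1/N)` -/
lemma avg_close {p : ℝ} (h0 : 0 < p) (h1 : p < 1) :
    ∃ C : ℝ, 0 ≤ C ∧ ∀ N : ℕ,
      |avg T R p N - (1 / (N:ℝ)) * ∑ i ∈ Finset.range N, w i| ≤ C / N := by
  classical
  obtain ⟨n0, q, hq0, hq, hit⟩ := exists_low h0 h1
  set b : ℕ → ℝ := fun i => R.indicator (fun _ => (1 : ℝ)) (T^[i] p) with hb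
  have hb0 : ∀ i, 0 ≤ b i := by
    intro i; apply Set.indicator_nonneg; intro _ _; norm_num
  have hb1 : ∀ i, b i ≤ 1 := by
    intro i
    simp only [hb, Set.indicator_apply]
    split_ifs <;> norm_num
  have hbw : ∀ i, b (n0 + i) = w (lev q + i) := by
    intro i
    simp only [hb]
    rw [hit i, ind_R hq0 hq]
  refine ⟨1 + n0 + lev q, by positivity, ?_⟩
  intro N
  have e0 : ∑ i ∈ Finset.Icc 1 N, b i = ∑ i ∈ Finset.range N, b (1 + i) := by
    rw [← Finset.Ico_succ_right_eq_Icc, Finset.sum_Ico_eq_sum_range]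
    simp
  have e1 := shift_bound b hb0 hb1 1 N
  have e2 := shift_bound b hb0 hb1 n0 N
  have e3 := shift_bound w w_nonneg w_le (lev q) N
  have e4 : ∑ i ∈ Finset.range N, b (n0 + i) = ∑ i ∈ Finset.range N, w (lev q + i) :=
    Finset.sum_congr rfl (fun i _ => hbw i)
  have e5 : |∑ i ∈ Finset.Icc 1 N, b i - ∑ i ∈ Finset.range N, w i| ≤ 1 + n0 + lev q := by
    rw [e0]
    rw [e4] at e2
    rw [abs_le] at e1 e2 e3 ⊢
    push_cast at e1
    constructor <;> linarith [e1.1, e1.2, e2.1, e2.2, e3.1, e3.2]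
  have e6 : avg T R p N - (1 / (N:ℝ)) * ∑ i ∈ Finset.range N, w i =
      (1 / (N:ℝ)) * (∑ i ∈ Finset.Icc 1 N, b i - ∑ i ∈ Finset.range N, w i) := by
    unfold avg
    rw [mul_sub]
  rw [e6, abs_mul, abs_of_nonneg (by positivity : (0:ℝ) ≤ 1 / N), div_mul_eq_mul_div, one_mul]
  exact div_le_div_of_nonneg_right e5 (by positivity)

lemma avg_nonneg (p : ℝ) (N : ℕ) : 0 ≤ avg T R p N := by
  unfold avg
  apply mul_nonneg (by positivity)
  apply Finset.sum_nonneg
  intro i _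
  apply Set.indicator_nonneg
  intro _ _; norm_num

lemma avg_le_one (p : ℝ) (N : ℕ) : avg T R p N ≤ 1 := by
  classical
  unfold avg
  rcases Nat.eq_zero_or_pos N with h | h
  · subst h; simp
  have hN : (0:ℝ) < N := by exact_mod_cast h
  have : ∑ i ∈ Finset.Icc 1 N, R.indicator (fun _ => (1 : ℝ)) (T^[i] p) ≤ N := by
    calc ∑ i ∈ Finset.Icc 1 N, R.indicator (fun _ => (1 : ℝ)) (T^[i] p)
        ≤ ∑ i ∈ Finset.Icc 1 N, (1:ℝ) := by
          apply Finset.sum_le_sum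
          intro i _
          simp only [Set.indicator_apply]
          split_ifs <;> norm_num
      _ = N := by simp
  rw [div_mul_eq_mul_div, one_mul, div_le_one hN]
  exact this

/-- consecutive averages differ by at most `1/(N+1)` -/
lemma avg_step (p : ℝ) (N : ℕ) : avg T R p (N + 1) - avg T R p N ≤ 1 / ((N:ℝ) + 1) := by
  classical
  rcases Nat.eq_zero_or_pos N with h | h
  · subst h
    have h1 := avg_le_one p (0 + 1)
    have h2 := avg_nonneg p 0
    simp only [Nat.cast_zero, zero_add, div_one] at *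
    linarith
  have hN : (0:ℝ) < N := by exact_mod_cast h
  set S : ℝ := ∑ i ∈ Finset.Icc 1 N, R.indicator (fun _ => (1 : ℝ)) (T^[i] p) with hS
  have hS0 : 0 ≤ S := by
    apply Finset.sum_nonneg
    intro i _
    apply Set.indicator_nonneg
    intro _ _; norm_num
  have e1 : avg T R p N = S / N := by unfold avg; rw [← hS]; ring
  have e2 : avg T R p (N + 1) =
      (S + R.indicator (fun _ => (1 : ℝ)) (T^[N + 1] p)) / ((N:ℝ) + 1) := by
    unfold avg
    rw [Finset.sum_Icc_succ_top (by omega), ← hS]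
    push_cast
    ring
  have e3 : R.indicator (fun _ => (1 : ℝ)) (T^[N + 1] p) ≤ 1 := by
    simp only [Set.indicator_apply]
    split_ifs <;> norm_num
  have e4 : S / ((N:ℝ) + 1) ≤ S / N := div_le_div_of_nonneg_left hS0 hN (by linarith)
  have e5 : R.indicator (fun _ => (1 : ℝ)) (T^[N + 1] p) / ((N:ℝ) + 1) ≤ 1 / ((N:ℝ) + 1) :=
    div_le_div_of_nonneg_right e3 (by positivity)
  rw [e1, e2, add_div]
  linarith

/-- the averages are arbitrarily small infinitely often -/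
lemma freq_low {p : ℝ} (h0 : 0 < p) (h1 : p < 1) {ε : ℝ} (hε : 0 < ε) (N0 : ℕ) :
    ∃ N, N0 ≤ N ∧ avg T R p N < ε := by
  obtain ⟨C, hC, hcl⟩ := avg_close h0 h1
  obtain ⟨m, hm⟩ := exists_nat_gt (max (N0:ℝ) ((C + 1) / ε))
  have hm1 : (N0:ℝ) < m := lt_of_le_of_lt (le_max_left _ _) hm
  have hm2 : (C + 1) / ε < m := lt_of_le_of_lt (le_max_right _ _) hm
  have hodd : ¬ Even (2 * m + 1) := by
    rw [Nat.not_even_iff_odd]; exact ⟨m, rfl⟩
  have hs := sum_odd (2 * m + 1) hodd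
  set A : ℝ := (2:ℝ) ^ (2 ^ (2 * m + 1)) with hA
  have hAm : (m:ℝ) < A := by
    have : m < 2 ^ (2 ^ (2 * m + 1)) := by
      calc m < 2 ^ m := Nat.lt_two_pow_self
        _ ≤ 2 ^ (2 ^ (2 * m + 1)) := by
          apply Nat.pow_le_pow_right (by norm_num)
          calc m ≤ 2 * m + 1 := by omega
            _ ≤ 2 ^ (2 * m + 1) := Nat.lt_two_pow_self.le
    rw [hA]
    exact_mod_cast this
  have hA0 : 0 < A := by positivity
  have hA1 : 1 ≤ A := one_le_pow₀ (by norm_num)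
  have hsq : (((2 ^ (2 ^ (2 * m + 1 + 1)) : ℕ)) : ℝ) = A * A := by
    push_cast
    rw [hA, ← pow_add, pow_succ]
    congr 1
    ring
  refine ⟨2 ^ (2 ^ (2 * m + 1 + 1)), ?_, ?_⟩
  · have : (N0:ℝ) ≤ ((2 ^ (2 ^ (2 * m + 1 + 1)) : ℕ) : ℝ) := by
      rw [hsq]
      nlinarith
    exact_mod_cast this
  · have h := hcl (2 ^ (2 ^ (2 * m + 1 + 1)))
    rw [hsq] at h
    have h' := (abs_le.1 h).2
    have h3 : (1 / (A * A)) * ∑ i ∈ Finset.range (2 ^ (2 ^ (2 * m + 1 + 1))), w i ≤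
        (1 / (A * A)) * A := mul_le_mul_of_nonneg_left hs (by positivity)
    have h4 : (1 / (A * A)) * A = 1 / A := by field_simp
    have h5 : C / (A * A) ≤ C / A := by
      apply div_le_div_of_nonneg_left hC hA0
      nlinarith
    have h6 : 1 / A + C / A < ε := by
      rw [← add_div, div_lt_iff₀ hA0]
      rw [div_lt_iff₀ hε] at hm2
      nlinarith
    linarith

/-- the averages are arbitrarily close to `1` infinitely often -/
lemma freq_high {p : ℝ} (h0 : 0 < p) (h1 : p < 1) {ε : ℝ} (hε : 0 < ε) (N0 : ℕ) :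
    ∃ N, N0 ≤ N ∧ 1 - ε < avg T R p N := by
  obtain ⟨C, hC, hcl⟩ := avg_close h0 h1
  obtain ⟨m, hm⟩ := exists_nat_gt (max (N0:ℝ) ((C + 1) / ε))
  have hm1 : (N0:ℝ) < m := lt_of_le_of_lt (le_max_left _ _) hm
  have hm2 : (C + 1) / ε < m := lt_of_le_of_lt (le_max_right _ _) hm
  have hs := sum_even (2 * m) (even_two_mul m)
  set A : ℝ := (2:ℝ) ^ (2 ^ (2 * m)) with hA
  have hAm : (m:ℝ) < A := by
    have : m < 2 ^ (2 ^ (2 * m)) := by
      calc m < 2 ^ m := Nat.lt_two_pow_self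
        _ ≤ 2 ^ (2 ^ (2 * m)) := by
          apply Nat.pow_le_pow_right (by norm_num)
          calc m ≤ 2 * m := by omega
            _ ≤ 2 ^ (2 * m) := Nat.lt_two_pow_self.le
    rw [hA]
    exact_mod_cast this
  have hA0 : 0 < A := by positivity
  have hA1 : 1 ≤ A := one_le_pow₀ (by norm_num)
  have hsq' : (2:ℝ) ^ (2 ^ (2 * m + 1)) = A * A := by
    rw [hA, ← pow_add, pow_succ]
    congr 1
    ring
  have hsq : (((2 ^ (2 ^ (2 * m + 1)) : ℕ)) : ℝ) = A * A := by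
    push_cast
    exact hsq'
  rw [hsq'] at hs
  refine ⟨2 ^ (2 ^ (2 * m + 1)), ?_, ?_⟩
  · have : (N0:ℝ) ≤ ((2 ^ (2 ^ (2 * m + 1)) : ℕ) : ℝ) := by
      rw [hsq]
      nlinarith
    exact_mod_cast this
  · have h := hcl (2 ^ (2 ^ (2 * m + 1)))
    rw [hsq] at h
    have h' := (abs_le.1 h).1
    have h3 : (1 / (A * A)) * (A * A - A) ≤
        (1 / (A * A)) * ∑ i ∈ Finset.range (2 ^ (2 ^ (2 * m + 1))), w i :=
      mul_le_mul_of_nonneg_left hs (by positivity)
    have h4 : (1 / (A * A)) * (A * A - A) = 1 - 1 / A := by field_simp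
    have h5 : C / (A * A) ≤ C / A := by
      apply div_le_div_of_nonneg_left hC hA0
      nlinarith
    have h6 : 1 / A + C / A < ε := by
      rw [← add_div, div_lt_iff₀ hA0]
      rw [div_lt_iff₀ hε] at hm2
      nlinarith
    linarith

/-- every number of `[0,1]` is approached infinitely often -/
lemma freq_all {p : ℝ} (h0 : 0 < p) (h1 : p < 1) {c : ℝ} (hc : c ∈ Icc (0:ℝ) 1) {ε : ℝ}
    (hε : 0 < ε) (N0 : ℕ) : ∃ N, N0 ≤ N ∧ |avg T R p N - c| < ε := by
  classical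
  rcases eq_or_lt_of_le hc.1 with h | hc0
  · obtain ⟨N, hN, hlt⟩ := freq_low h0 h1 hε N0
    refine ⟨N, hN, ?_⟩
    rw [← h, sub_zero, abs_of_nonneg (avg_nonneg p N)]
    exact hlt
  rcases eq_or_lt_of_le hc.2 with h | hc1
  · obtain ⟨N, hN, hlt⟩ := freq_high h0 h1 hε N0
    refine ⟨N, hN, ?_⟩
    rw [h, abs_lt]
    have := avg_le_one p N
    constructor <;> linarith
  obtain ⟨M, hM⟩ := exists_nat_gt (1 / ε)
  obtain ⟨N1, hN1, hlt1⟩ := freq_low h0 h1 hc0 (max N0 M)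
  obtain ⟨N2, hN2, hlt2⟩ := freq_high h0 h1 (sub_pos.2 hc1) N1
  have hex : ∃ n, N1 ≤ n ∧ c ≤ avg T R p n := ⟨N2, hN2, by linarith⟩
  have hspec := Nat.find_spec hex
  have hmin := fun m => Nat.find_min hex (m := m)
  generalize Nat.find hex = n at hspec hmin
  have hne : N1 ≠ n := by
    intro hh
    rw [← hh] at hspec
    linarith [hspec.2]
  have hlt : N1 < n := lt_of_le_of_ne hspec.1 hne
  obtain ⟨k, rfl⟩ : ∃ k, n = k + 1 := ⟨n - 1, by omega⟩
  have hk : ¬ (N1 ≤ k ∧ c ≤ avg T R p k) := hmin k (by omega)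
  have hk' : avg T R p k < c := by
    by_contra hcon
    exact hk ⟨by omega, not_lt.1 hcon⟩
  refine ⟨k + 1, by omega, ?_⟩
  have hst := avg_step p k
  have hkM : (M:ℝ) ≤ k := by
    have : M ≤ k := by omega
    exact_mod_cast this
  have hsm : 1 / ((k:ℝ) + 1) < ε := by
    have hk0 : (0:ℝ) ≤ k := by positivity
    rw [div_lt_iff₀ (by positivity)]
    rw [div_lt_iff₀ hε] at hM
    nlinarith
  rw [abs_lt]
  constructor
  · linarith [hspec.2]
  · linarith

/-- **Negative answer to Q1 of MP_8df504_an, in the strongest form.** There are a broken-linear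
homeomorphism `T` of `[0,1]` and a Borel set `R ⊆ [0,1]` such that for EVERY `p ∈ (0,1)` the
averages `A_N(R,p)` do not converge; indeed every number of `[0,1]` is a limit point of them. -/
theorem result :
    ∃ (T : ℝ → ℝ) (R : Set ℝ), BrokenLinear T ∧ Set.BijOn T (Set.Icc 0 1) (Set.Icc 0 1) ∧
      R ⊆ Set.Icc 0 1 ∧ MeasurableSet R ∧
        ∀ p ∈ Set.Ioo (0:ℝ) 1,
          (¬ ∃ L : ℝ, Tendsto (fun N : ℕ => avg T R p N) atTop (𝓝 L)) ∧
          ∀ c ∈ Set.Icc (0:ℝ) 1, MapClusterPt c atTop (fun N : ℕ => avg T R p N) := by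
  refine ⟨T, R, T_broken, T_bij, fun x hx => ⟨hx.1.1.le, hx.1.2⟩, measurable_R, ?_⟩
  intro p hp
  have hcl : ∀ c ∈ Set.Icc (0:ℝ) 1, MapClusterPt c atTop (fun N : ℕ => avg T R p N) := by
    intro c hc
    rw [Metric.nhds_basis_ball.mapClusterPt_iff_frequently]
    intro ε hε
    rw [frequently_atTop]
    intro N0
    obtain ⟨N, hN, hlt⟩ := freq_all hp.1 hp.2 hc hε N0
    exact ⟨N, hN, by rw [Metric.mem_ball, Real.dist_eq]; exact hlt⟩
  refine ⟨?_, hcl⟩
  rintro ⟨L, hL⟩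
  have h0 : L = 0 := by
    obtain ⟨φ, hφ, hφt⟩ :=
      MapClusterPt.tendsto_subseq (hcl 0 ⟨le_rfl, zero_le_one⟩)
    exact tendsto_nhds_unique (hL.comp hφ.tendsto_atTop) hφt
  have h1 : L = 1 := by
    obtain ⟨φ, hφ, hφt⟩ :=
      MapClusterPt.tendsto_subseq (hcl 1 ⟨zero_le_one, le_rfl⟩)
    exact tendsto_nhds_unique (hL.comp hφ.tendsto_atTop) hφt
  rw [h0] at h1
  exact zero_ne_one h1

end Pool.Agent.Results.MP_8df504_an.FullOscillation
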